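import Pool.Agent.Lib.MP_529713_gt.Bridge

/-!
# Bilipschitz equivalence of visual boundaries: a negative answer

There are two closed Riemannian 3-manifolds with sectional curvature at most `-1`, equal to `-1`
for some tangent plane, whose visual boundaries have the same Hausdorff dimension but are not
bilipschitz equivalent.
-/

open Pool.Agent.Lib.MP_529713_gt.Stmt in
theorem Pool.Agent.Results.MP_529713_gt.VisualBoundaries.result :
    ∃ (G₀ G₁ : Metric) (Γ₀ Γ₁ : Subgroup (Equiv.Perm V3)),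
      IsDeck G₀ Γ₀ ∧ IsDeck G₁ Γ₁ ∧ CurvNegOne G₀ ∧ CurvNegOne G₁ ∧
      ∃ s : ℝ, 3 ≤ s ∧ s ≤ 6 ∧ ∀ o₀ o₁ : V3,
        hdim (vis (rdist G₀) o₀) = s ∧ hdim (vis (rdist G₁) o₁) = s ∧
          ¬ Bilip (vis (rdist G₀) o₀) (vis (rdist G₁) o₁) :=
  Pool.Agent.Lib.MP_529713_gt.main_stmt
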